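import Pool.Agent.Helper58.R3.Stmts

/-!
# CN: the vertex `a j` with a neighbour in `X` different from `v0`
-/

set_option autoImplicit false
open Classical

namespace Pool.Agent.Helper58.R3

/-- a vertex of `X` adjacent to a vertex of `L l` is in `D l` -/
theorem cn_XD {m : ℕ} {H : SimpleGraph (Fin m)} {v0 : Fin m} {A : Type} {X : Finset (Fin m)}
    {L D : A → Finset (Fin m)} {Φ : A → Fin m → Fin m} (c : Cfg H v0 X L D Φ) {l : A}
    {y x : Fin m} (hy : y ∈ L l) (hx : x ∈ X) (h : H.Adj y x) : x ∈ D l := by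
  rcases c.nbL l y hy x h with h1 | h1
  · exact absurd hx (c.LX l x h1)
  · exact h1

/-- a vertex of `L l'` adjacent to a vertex of `L l` has `l = l'` -/
theorem cn_LL {m : ℕ} {H : SimpleGraph (Fin m)} {v0 : Fin m} {A : Type} {X : Finset (Fin m)}
    {L D : A → Finset (Fin m)} {Φ : A → Fin m → Fin m} (c : Cfg H v0 X L D Φ) {l l' : A}
    {y x : Fin m} (hy : y ∈ L l) (hx : x ∈ L l') (h : H.Adj y x) : l = l' := by
  rcases c.nbL l y hy x h with h1 | h1
  · exact c.LL l l' x h1 hx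
  · exact absurd (c.DX l x h1) (c.LX l' x hx)

theorem st_CN : ST_CN := by
  intro m H v0 A X L D Φ i a h j x hxX hxv hax
  have hc := h.c
  have haL := h.aL
  have hxD : x ∈ D (i j) := cn_XD hc (haL j) hxX hax
  have hv0a : H.Adj v0 (a j) := (h.Nv (a j)).2 ⟨j, rfl⟩
  have hvD := h.vD j
  have mL : a j ∈ L (i j) ∪ D (i j) := Finset.mem_union_left _ (haL j)
  have mx : x ∈ L (i j) ∪ D (i j) := Finset.mem_union_right _ hxD
  have mv : v0 ∈ L (i j) ∪ D (i j) := Finset.mem_union_right _ hvD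
  have e1 : H.Adj (Φ (i j) (a j)) (Φ (i j) v0) := hc.hom (i j) _ mL _ mv hv0a.symm
  have e2 : H.Adj (Φ (i j) (a j)) (Φ (i j) x) := hc.hom (i j) _ mL _ mx hax
  obtain ⟨p, hp⟩ := (h.Nv _).1 (hc.ΦD (i j) v0 hvD)
  obtain ⟨q, hq⟩ := (h.Nv _).1 (hc.ΦD (i j) x hxD)
  have hpq : p ≠ q := by
    intro hh
    apply hxv
    apply hc.inj (i j) x mx v0 mv
    rw [hp, hq, hh]
  have e1' : H.Adj (Φ (i j) (a j)) (a p) := by rw [← hp]; exact e1
  have e2' : H.Adj (Φ (i j) (a j)) (a q) := by rw [← hq]; exact e2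
  have hwX : Φ (i j) (a j) ∈ X := by
    rcases hc.cov (Φ (i j) (a j)) with h1 | ⟨l, hl⟩
    · exact h1
    · exfalso
      have h2 := cn_LL hc hl (haL p) e1'
      have h3 := cn_LL hc hl (haL q) e2'
      exact hpq (h.ii (h2.symm.trans h3))
  refine ⟨hwX, (hc.ΦL (i j) _ (haL j)).1, hxD, p, q, hpq, hp, hq, e1', e2', ?_, ?_⟩
  · exact cn_XD hc (haL p) hwX e1'.symm
  · exact cn_XD hc (haL q) hwX e2'.symm

end Pool.Agent.Helper58.R3
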