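import Pool.Agent.Helper58.R3.Stmts

/-!
# EO: the case where all indices are good
-/

set_option autoImplicit false
open Classical

namespace Pool.Agent.Helper58.R3

theorem eo_empty {m : ℕ} {K : Finset (Fin m)} {P : Fin m → Prop}
    (h : ¬ (K.filter P).Nonempty) : ∀ x ∈ K, ¬ P x := by
  intro x hx hP
  exact h ⟨x, Finset.mem_filter.2 ⟨hx, hP⟩⟩

theorem eo_KC (h2 : ST_KK) {m : ℕ} {H : SimpleGraph (Fin m)} {v0 : Fin m} {A : Type}
    {X : Finset (Fin m)} {L D : A → Finset (Fin m)} {Φ : A → Fin m → Fin m} {i : Fin 3 → A}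
    {a : Fin 3 → Fin m} (h : Cfg2 H v0 X L D Φ i a) (n : ℕ) (hn : NoPc H v0 n)
    (hX : ∀ j, Φ (i j) (a j) ∈ X) (r : ℕ) :
    ∀ (K : Finset (Fin m)) (j : Fin 3) (Θ : Fin m → Fin m), K.card = r → K.card ≤ n + 1 →
      ¬ KC H v0 L D i a K j Θ := by
  induction r using Nat.strong_induction_on with
  | _ r ih =>
    intro K j Θ hr hK hKC
    have hc := h.c
    obtain ⟨s, hs⟩ := (h.Nv _).1 (hc.ΦD (i j) v0 (h.vD j))
    obtain ⟨k1, ⟨e, he, heq⟩, k3, k4⟩ := h2 m H v0 A X L D Φ i a h n hn K j s Θ hKC hK hs (hX j)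
    have hT : ∀ x ∈ K, Φ (i j) (Θ x) ∈ X := by
      intro x hx
      rcases hc.cov (Φ (i j) (Θ x)) with h5 | ⟨l, hl⟩
      · exact h5
      · exfalso
        by_cases hl' : ∀ t, t ≠ s → l ≠ i t
        · exact k1 l hl' x hx hl
        · push Not at hl'
          obtain ⟨t, hts, hlt⟩ := hl'
          rw [hlt] at hl
          obtain ⟨g1, g2⟩ := k4 t hts ⟨x, Finset.mem_filter.2 ⟨hx, hl⟩⟩
          exact ih _ (by rw [← hr]; exact g2) _ t _ rfl (by omega) g1
    have he' := (Finset.mem_filter.1 he).2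
    obtain ⟨_, q, hq, hqe⟩ := he'
    have ad := k3 q (Finset.mem_union_left _ hq) e (Finset.mem_union_right _ he) hqe
    exact hc.ind _ (hT q hq) _ (by rw [heq]; exact hX j) ad

theorem st_EO (h1 : ST_VK) (h2 : ST_KK) : ST_EO := by
  intro m H v0 A X L D Φ i a h n hn hX K Θ hP
  by_contra hcon
  have hK : K.card ≤ n + 1 := by omega
  have hc := h.c
  obtain ⟨v1, v2, v3⟩ := h1 m H v0 A X L D Φ i a h n hn K Θ hP hK
  have hT : ∀ x ∈ K, Θ x ∈ X := by
    intro x hx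
    rcases hc.cov (Θ x) with h5 | ⟨l, hl⟩
    · exact h5
    · exfalso
      by_cases hl' : ∀ t, l ≠ i t
      · exact v1 l hl' x hx hl
      · push Not at hl'
        obtain ⟨t, hlt⟩ := hl'
        rw [hlt] at hl
        obtain ⟨g1, g2⟩ := v3 t ⟨x, Finset.mem_filter.2 ⟨hx, hl⟩⟩
        exact eo_KC h2 h n hn hX _ _ t _ rfl (by omega) g1
  obtain ⟨x, hx, y, hy, hxy⟩ := hP.edge
  exact hc.ind _ (hT x hx) _ (hT y hy)
    (hP.emb.hom x (Finset.mem_union_left _ hx) y (Finset.mem_union_left _ hy) hxy)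

end Pool.Agent.Helper58.R3
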